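import Pool.Agent.H71.GW.Targets

/-!
# Horner evaluation and monotonicity in the dimension (module HOR)
-/

set_option autoImplicit false

namespace Pool.Agent.H34.GW

open Pool.Agent.H71.GW

theorem nu_pos (m c : ℕ) (h : c ≤ m) : 0 < nu m c := by
  unfold nu
  have h1 : 0 < m.descFactorial c := by
    rcases Nat.eq_zero_or_pos (m.descFactorial c) with h2 | h2
    · rw [Nat.descFactorial_eq_zero_iff_lt] at h2
      omega
    · exact h2
  have h2 : (0 : ℤ) < (m.descFactorial c : ℤ) := by exact_mod_cast h1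
  positivity

theorem nu_succ (m c : ℕ) (h : c ≤ m) : nu m (c + 1) = 2 * ((m : ℤ) - c) * nu m c := by
  unfold nu
  rw [Nat.descFactorial_succ]
  push_cast [Nat.cast_sub h]
  ring

theorem eva_horner (m : ℕ) : ∀ (L : List ℤ) (c : ℕ) (r : ℤ), L.length ≤ c + 1 → c ≤ m →
    eva m L c + r * nu m (c + 1) = horner m L c r * nu m (c + 1 - L.length)
  | [], c, r, _, _ => by
    simp [eva, horner]
  | x :: L, 0, r, h, hm => by
    have hL : L = [] := by
      have h1 : L.length ≤ 0 := by
        simp only [List.length_cons] at h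
        omega
      exact List.length_eq_zero_iff.mp (by omega)
    subst hL
    have := nu_succ m 0 hm
    simp only [eva, horner, List.length_cons, List.length_nil]
    rw [this]
    simp only [zero_add, Nat.sub_self]
    push_cast
    ring
  | x :: L, c + 1, r, h, hm => by
    have h1 : L.length ≤ c + 1 := by
      simp only [List.length_cons] at h
      omega
    have ih := eva_horner m L c (2 * ((m : ℤ) - (c + 1 : ℕ)) * r + x) h1 (by omega)
    have h2 := nu_succ m (c + 1) hm
    simp only [eva, horner, Nat.add_sub_cancel, List.length_cons]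
    have h3 : c + 1 + 1 - (L.length + 1) = c + 1 - L.length := by omega
    rw [h3, ← ih, h2]
    ring

theorem horner_nonneg (m : ℕ) : ∀ (L : List ℤ) (d : ℕ) (r : ℤ), (∀ x ∈ L, 0 ≤ x) → d ≤ m →
    0 ≤ r → 0 ≤ horner m L d r
  | [], _, r, _, _, hr => by simpa [horner] using hr
  | x :: L, d, r, h, hd, hr => by
    simp only [horner]
    apply horner_nonneg m L (d - 1) _ (fun y hy => h y (List.mem_cons_of_mem _ hy)) (by omega)
    have h1 : 0 ≤ x := h x List.mem_cons_self
    have h2 : (0 : ℤ) ≤ (m : ℤ) - d := by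
      have : (d : ℤ) ≤ m := by exact_mod_cast hd
      linarith
    positivity

theorem horner_mono (m₀ m : ℕ) (hm : m₀ ≤ m) : ∀ (L : List ℤ) (d : ℕ) (r₀ r P₀ P : ℤ),
    (∀ x ∈ L, 0 ≤ x) → d ≤ m₀ → 0 < P₀ → P₀ ≤ P → r * P₀ ≤ r₀ * P → horner m₀ L d r₀ < 0 →
    horner m L d r < 0
  | [], d, r₀, r, P₀, P, _, _, h0, h1, h2, h3 => by
    simp only [horner] at h3 ⊢
    have h4 : r₀ * P < 0 := mul_neg_of_neg_of_pos h3 (lt_of_lt_of_le h0 h1)
    by_contra h5
    have h6 : 0 ≤ r * P₀ := mul_nonneg (not_lt.mp h5) h0.le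
    linarith
  | x :: L, d, r₀, r, P₀, P, h, hd, h0, h1, h2, h3 => by
    simp only [horner] at h3 ⊢
    have hx : 0 ≤ x := h x List.mem_cons_self
    have hL : ∀ y ∈ L, 0 ≤ y := fun y hy => h y (List.mem_cons_of_mem _ hy)
    have hd' : (d : ℤ) ≤ m₀ := by exact_mod_cast hd
    have hm' : (m₀ : ℤ) ≤ m := by exact_mod_cast hm
    have hneg : 2 * ((m₀ : ℤ) - d) * r₀ + x < 0 := by
      by_contra h5
      have := horner_nonneg m₀ L (d - 1) _ hL (by omega) (not_lt.mp h5)
      linarith
    have hpos : 0 < (m₀ : ℤ) - d := by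
      rcases lt_or_ge (0 : ℤ) ((m₀ : ℤ) - d) with h6 | h6
      · exact h6
      · have h7 : (m₀ : ℤ) - d = 0 := by linarith
        rw [h7] at hneg
        linarith
    apply horner_mono m₀ m hm L (d - 1) (2 * ((m₀ : ℤ) - d) * r₀ + x) _
      (P₀ * ((m₀ : ℤ) - d)) (P * ((m : ℤ) - d)) hL (by omega) (mul_pos h0 hpos) _ _ h3
    · exact mul_le_mul h1 (by linarith) hpos.le (le_trans h0.le h1)
    · have e1 : r * P₀ * (2 * ((m : ℤ) - d) * ((m₀ : ℤ) - d)) ≤
          r₀ * P * (2 * ((m : ℤ) - d) * ((m₀ : ℤ) - d)) := by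
        apply mul_le_mul_of_nonneg_right h2
        have : (0 : ℤ) ≤ (m : ℤ) - d := by linarith
        positivity
      have e2 : x * (P₀ * ((m₀ : ℤ) - d)) ≤ x * (P * ((m : ℤ) - d)) := by
        apply mul_le_mul_of_nonneg_left _ hx
        exact mul_le_mul h1 (by linarith) hpos.le (le_trans h0.le h1)
      nlinarith [e1, e2]

theorem hor : T_HOR := by
  intro L c m₀ hg hlen hc hneg m hm
  match L, hg, hlen, hneg with
  | x :: y :: z :: L', hg, hlen, hneg =>
    simp only [good, Bool.and_eq_true, beq_iff_eq, decide_eq_true_eq, List.all_eq_true] at hg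
    obtain ⟨⟨⟨hx, hy⟩, hz⟩, hL⟩ := hg
    subst hx hy
    have h1 := eva_horner m (0 :: 0 :: z :: L') c 0 hlen (le_trans hc hm)
    rw [zero_mul, add_zero] at h1
    rw [h1]
    apply mul_neg_of_neg_of_pos _ (nu_pos m _ _)
    · simp only [horner, mul_zero, add_zero, zero_add] at hneg ⊢
      refine horner_mono m₀ m hm L' _ z z 1 1 hL (by omega) one_pos le_rfl le_rfl hneg
    · simp only [List.length_cons]
      omega

end Pool.Agent.H34.GW
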