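import Pool.Agent.H55.GW.Targets2

/-!
# DST: long shortest paths in connected relations of bounded degree
-/

set_option autoImplicit false

namespace Pool.Agent.H34.GW

open Pool.Agent.H55.GW

/-- vertices at distance at most `k` from `x` -/
def dBall (A : ℕ → ℕ → Prop) (x : ℕ) : ℕ → Set ℕ
  | 0 => {x}
  | k + 1 => dBall A x k ∪ {y | ∃ u ∈ dBall A x k, A u y}

theorem dBall_mono (A : ℕ → ℕ → Prop) (x : ℕ) {i j : ℕ} (h : i ≤ j) :
    dBall A x i ⊆ dBall A x j := by
  induction h with
  | refl => exact subset_rfl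
  | step _ ih => exact ih.trans fun y hy => Or.inl hy

theorem dBall_card {A : ℕ → ℕ → Prop} {Δ : ℕ}
    (hA : ∀ x, {y | A x y}.Finite ∧ {y | A x y}.ncard ≤ Δ) (x k : ℕ) :
    (dBall A x k).Finite ∧ (dBall A x k).ncard ≤ (Δ + 1) ^ k := by
  classical
  induction k with
  | zero => simp [dBall]
  | succ k ih =>
    obtain ⟨hf, hc⟩ := ih
    have h1 : dBall A x (k + 1) =
        ((hf.toFinset ∪ hf.toFinset.biUnion fun u => (hA u).1.toFinset : Finset ℕ) : Set ℕ) := by
      ext y
      simp [dBall]
    rw [h1]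
    refine ⟨Finset.finite_toSet _, ?_⟩
    rw [Set.ncard_coe_finset]
    have h2 : (hf.toFinset.biUnion fun u => (hA u).1.toFinset).card ≤ hf.toFinset.card * Δ := by
      refine Finset.card_biUnion_le_card_mul _ _ _ fun u _ => ?_
      rw [← Set.ncard_eq_toFinset_card _ (hA u).1]
      exact (hA u).2
    have h3 : hf.toFinset.card ≤ (Δ + 1) ^ k := by
      rw [← Set.ncard_eq_toFinset_card _ hf]
      exact hc
    calc (hf.toFinset ∪ hf.toFinset.biUnion fun u => (hA u).1.toFinset).card
        ≤ hf.toFinset.card + hf.toFinset.card * Δ := (Finset.card_union_le _ _).trans (by omega)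
      _ = hf.toFinset.card * (Δ + 1) := by ring
      _ ≤ (Δ + 1) ^ k * (Δ + 1) := Nat.mul_le_mul_right _ h3
      _ = (Δ + 1) ^ (k + 1) := by rw [pow_succ]

/-- a shortest path to a vertex at distance exactly `l` -/
theorem dBall_path {A : ℕ → ℕ → Prop} {x : ℕ} (l : ℕ) : ∀ y, y ∈ dBall A x l →
    (∀ k < l, y ∉ dBall A x k) → ∃ r : ℕ → ℕ, r l = y ∧
      (∀ i ≤ l, r i ∈ dBall A x i ∧ ∀ k < i, r i ∉ dBall A x k) ∧
      ∀ i < l, A (r i) (r (i + 1)) := by
  induction l with
  | zero =>
    intro y hy _
    refine ⟨fun _ => y, rfl, ?_, by simp⟩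
    intro i hi
    obtain rfl : i = 0 := by omega
    exact ⟨hy, by simp⟩
  | succ l ih =>
    intro y hy hy'
    rcases hy with hy | ⟨u, hu, huy⟩
    · exact absurd hy (hy' l (by omega))
    · have hu' : ∀ k < l, u ∉ dBall A x k := by
        intro k hk h
        exact hy' (k + 1) (by omega) (Or.inr ⟨u, h, huy⟩)
      obtain ⟨r, h1, h2, h3⟩ := ih u hu hu'
      refine ⟨fun i => if i = l + 1 then y else r i, by simp, ?_, ?_⟩
      · intro i hi
        by_cases h : i = l + 1
        · subst h
          simp only [if_true]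
          exact ⟨Or.inr ⟨u, hu, huy⟩, hy'⟩
        · simp only [h, if_false]
          exact h2 i (by omega)
      · intro i hi
        have h4 : i ≠ l + 1 := by omega
        simp only [h4, if_false]
        by_cases h : i = l
        · subst h
          simp only [if_true, h1]
          exact huy
        · have h5 : i + 1 ≠ l + 1 := by omega
          simp only [h5, if_false]
          exact h3 i (by omega)

theorem T_DST_holds : T_DST := by
  classical
  intro Δ L
  refine ⟨(Δ + 1) ^ L, fun A R hs hA hR hc => ?_⟩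
  have hne : R.Nonempty := by
    rw [← Finset.card_pos]
    omega
  obtain ⟨x, hx⟩ := hne
  obtain ⟨hf, hcard⟩ := dBall_card hA x L
  obtain ⟨y, hy, hyL⟩ : ∃ y ∈ R, y ∉ dBall A x L := by
    by_contra hcon
    push Not at hcon
    have h1 : R ⊆ hf.toFinset := fun y hy => by simpa using hcon y hy
    have h2 := Finset.card_le_card h1
    rw [← Set.ncard_eq_toFinset_card _ hf] at h2
    omega
  have hreach : ∃ l, y ∈ dBall A x l := by
    have h1 := hc x hx y hy
    clear hyL hy
    induction h1 with
    | refl => exact ⟨0, rfl⟩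
    | @tail b c _ h4 ih =>
      obtain ⟨l, hl⟩ := ih
      exact ⟨l + 1, Or.inr ⟨b, hl, h4⟩⟩
  have hmin : ∀ k < Nat.find hreach, y ∉ dBall A x k := fun k hk => Nat.find_min hreach hk
  have hmem := Nat.find_spec hreach
  generalize Nat.find hreach = l at hmin hmem
  have hLl : L < l := by
    by_contra hcon
    exact hyL (dBall_mono A x (not_lt.1 hcon) hmem)
  obtain ⟨r, h1, h2, h3⟩ := dBall_path l y hmem hmin
  have hfar : ∀ i j, i + 1 < j → j ≤ l → ¬ A (r i) (r j) := by
    intro i j hij hj h
    exact (h2 j hj).2 (i + 1) hij (Or.inr ⟨r i, (h2 i (by omega)).1, h⟩)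
  refine ⟨r, ?_, ?_⟩
  · intro i hi j hj hij heq
    rcases lt_or_gt_of_ne hij with h | h
    · exact (h2 j (by omega)).2 i h (heq ▸ (h2 i (by omega)).1)
    · exact (h2 i (by omega)).2 j h (heq ▸ (h2 j (by omega)).1)
  · intro i hi j hj hij
    constructor
    · intro h
      by_contra hcon
      push Not at hcon
      rcases lt_or_gt_of_ne hij with h' | h'
      · exact hfar i j (by omega) (by omega) h
      · exact hfar j i (by omega) (by omega) (hs _ _ h)
    · rintro (rfl | rfl)
      · exact h3 i (by omega)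
      · exact hs _ _ (h3 j (by omega))

end Pool.Agent.H34.GW
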