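import Pool.Agent.H55.GW.Targets2

/-!
# TRC: large reach in bounded degree gives a comb
-/

set_option autoImplicit false

namespace Pool.Agent.H34.GW

open Pool.Agent.H55.GW

/-- prepend a value to a sequence -/
def consN {α : Type} (x : α) (f : ℕ → α) : ℕ → α
  | 0 => x
  | i + 1 => f i

@[simp] theorem consN_zero {α : Type} (x : α) (f : ℕ → α) : consN x f 0 = x := rfl
@[simp] theorem consN_succ {α : Type} (x : α) (f : ℕ → α) (i : ℕ) :
    consN x f (i + 1) = f i := rfl

theorem comb_cons {D : Vx → Vx → Prop} {T : Set Vx} {n : ℕ} {v c t0 : Vx} {w' t' : ℕ → Vx}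
    {Seg' Ex' : ℕ → Set Vx} {S E : Set Vx} (h : Comb D T n c w' t' Seg' Ex')
    (hSeg : ∀ i < n, Seg' i ⊆ S) (hEx : ∀ i < n, Ex' i ⊆ S) (hvS : v ∉ S) (hE : Disjoint E S)
    (hvE : v ∉ E) (hvc : D v c) (ht0 : t0 ∈ T) (hvt : RIn D (insert v E) v t0)
    (hEt : ∀ u ∈ E, RIn D E u t0) :
    Comb D T (n + 1) v (consN v w') (consN t0 t') (consN {v} Seg') (consN E Ex') where
  start := fun _ => RIn.refl (by simp)
  step := by
    intro i hi
    cases i with
    | zero =>
      simp only [consN_zero, consN_succ, zero_add]
      exact RIn.head hvc (by simp) ((h.start (by omega)).mono_set fun x hx => Or.inr hx)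
    | succ i =>
      simp only [consN_succ]
      exact h.step i (by omega)
  mem := by
    intro i hi
    cases i with
    | zero => simp
    | succ i => simpa using h.mem i (by omega)
  seg := by
    intro i hi u hu
    cases i with
    | zero =>
      simp only [consN_zero] at hu ⊢
      rw [Set.mem_singleton_iff] at hu
      subst hu
      exact RIn.refl rfl
    | succ i => exact h.seg i (by omega) u hu
  ex := by
    intro i hi
    cases i with
    | zero => exact ⟨ht0, hvt⟩
    | succ i => exact h.ex i (by omega)
  exr := by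
    intro i hi u hu
    cases i with
    | zero => exact hEt u hu
    | succ i => exact h.exr i (by omega) u hu
  dSeg := by
    intro i hi j hj hij
    cases i with
    | zero =>
      cases j with
      | zero => exact absurd rfl hij
      | succ j =>
        simp only [consN_zero, consN_succ]
        exact Set.disjoint_singleton_left.2 fun hv => hvS (hSeg j (by omega) hv)
    | succ i =>
      cases j with
      | zero =>
        simp only [consN_zero, consN_succ]
        exact Set.disjoint_singleton_right.2 fun hv => hvS (hSeg i (by omega) hv)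
      | succ j => exact h.dSeg i (by omega) j (by omega) (by omega)
  dEx := by
    intro i hi j hj hij
    cases i with
    | zero =>
      cases j with
      | zero => exact absurd rfl hij
      | succ j => exact hE.mono_right (hEx j (by omega))
    | succ i =>
      cases j with
      | zero => exact (hE.mono_right (hEx i (by omega))).symm
      | succ j => exact h.dEx i (by omega) j (by omega) (by omega)
  dSE := by
    intro i hi j hj
    cases i with
    | zero =>
      cases j with
      | zero => exact Set.disjoint_singleton_left.2 hvE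
      | succ j => exact Set.disjoint_singleton_left.2 fun hv => hvS (hEx j (by omega) hv)
    | succ i =>
      cases j with
      | zero => exact (hE.mono_right (hSeg i (by omega))).symm
      | succ j => exact h.dSE i (by omega) j (by omega)

theorem comb_insert {D : Vx → Vx → Prop} {T : Set Vx} {n : ℕ} {v c : Vx} {w t : ℕ → Vx}
    {Seg Ex : ℕ → Set Vx} {S : Set Vx} (h : Comb D T (n + 1) c w t Seg Ex)
    (hSeg : ∀ i < n + 1, Seg i ⊆ S) (hEx : ∀ i < n + 1, Ex i ⊆ S) (hvS : v ∉ S)
    (hvc : D v c) :
    Comb D T (n + 1) v w t (consN (insert v (Seg 0)) fun i => Seg (i + 1)) Ex where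
  start := fun _ => RIn.head hvc (Set.mem_insert _ _)
    ((h.start (by omega)).mono_set (Set.subset_insert _ _))
  step := by
    intro i hi
    simp only [consN_succ]
    exact h.step i hi
  mem := by
    intro i hi
    cases i with
    | zero => exact Or.inr (h.mem 0 hi)
    | succ i => exact h.mem (i + 1) hi
  seg := by
    intro i hi u hu
    cases i with
    | zero =>
      rcases hu with rfl | hu
      · exact RIn.head hvc (Set.mem_insert _ _)
          ((h.start (by omega)).mono_set (Set.subset_insert _ _))
      · exact (h.seg 0 hi u hu).mono_set (Set.subset_insert _ _)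
    | succ i => exact h.seg (i + 1) hi u hu
  ex := h.ex
  exr := h.exr
  dSeg := by
    intro i hi j hj hij
    cases i with
    | zero =>
      cases j with
      | zero => exact absurd rfl hij
      | succ j =>
        exact Set.disjoint_insert_left.2
          ⟨fun hv => hvS (hSeg (j + 1) hj hv), h.dSeg 0 hi (j + 1) hj (by omega)⟩
    | succ i =>
      cases j with
      | zero =>
        exact Set.disjoint_insert_right.2
          ⟨fun hv => hvS (hSeg (i + 1) hi hv), h.dSeg (i + 1) hi 0 hj (by omega)⟩
      | succ j => exact h.dSeg (i + 1) hi (j + 1) hj (by omega)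
  dEx := h.dEx
  dSE := by
    intro i hi j hj
    cases i with
    | zero => exact Set.disjoint_insert_left.2 ⟨fun hv => hvS (hEx j hj hv), h.dSE 0 hi j hj⟩
    | succ i => exact h.dSE (i + 1) hi j hj

/-- the part of the tree below `v` -/
def subT (a : Vx) (P N : Set Vx) (par : Vx → Vx) (v : Vx) : Set Vx :=
  {w | (w ∈ N ∨ w ∈ P ∨ w = a) ∧ ∃ k, par^[k] w = v}

section

variable {D : Vx → Vx → Prop} {a : Vx} {P N : Set Vx} {par : Vx → Vx}

theorem par_closed (hO : OTree D a P N par) {w : Vx} (hw : w ∈ N ∨ w ∈ P ∨ w = a) :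
    par w ∈ N ∨ par w ∈ P ∨ par w = a := by
  rcases hw with hw | hw | rfl
  · rcases (hO.arc w (Or.inl hw)).1 with h | h
    · exact Or.inl h
    · exact Or.inr (Or.inr h)
  · rcases (hO.arc w (Or.inr hw)).1 with h | h
    · exact Or.inl h
    · exact Or.inr (Or.inr h)
  · exact Or.inr (Or.inr hO.fix)

theorem iter_closed (hO : OTree D a P N par) {w : Vx} (hw : w ∈ N ∨ w ∈ P ∨ w = a) (k : ℕ) :
    par^[k] w ∈ N ∨ par^[k] w ∈ P ∨ par^[k] w = a := by
  induction k with
  | zero => exact hw
  | succ k ih =>
    rw [Function.iterate_succ_apply']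
    exact par_closed hO ih

theorem iter_a (hO : OTree D a P N par) (k : ℕ) : par^[k] a = a :=
  Function.iterate_fixed hO.fix k

theorem no_cycle (hO : OTree D a P N par) {v : Vx} (hv : v ∈ N ∨ v ∈ P ∨ v = a) {k : ℕ}
    (h : par^[k + 1] v = v) : v = a := by
  obtain ⟨j, hj⟩ : ∃ j, par^[j] v = a := by
    rcases hv with hv | hv | rfl
    · exact hO.root v (Or.inl hv)
    · exact hO.root v (Or.inr hv)
    · exact ⟨0, rfl⟩
  have h1 : ∀ i, par^[(k + 1) * i] v = v := by
    intro i
    rw [Function.iterate_mul]
    exact Function.iterate_fixed h i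
  have h2 : par^[(k + 1) * j] v = a := by
    have h3 : (k + 1) * j = k * j + j := by ring
    rw [h3, Function.iterate_add_apply, hj, iter_a hO]
  rw [← h1 j, h2]

theorem self_mem_subT {v : Vx} (hv : v ∈ N ∨ v ∈ P ∨ v = a) : v ∈ subT a P N par v :=
  ⟨hv, 0, rfl⟩

theorem subT_mono {v c : Vx} (h : c ∈ subT a P N par v) :
    subT a P N par c ⊆ subT a P N par v := by
  rintro w ⟨hw, k, hk⟩
  obtain ⟨-, j, hj⟩ := h
  exact ⟨hw, j + k, by rw [Function.iterate_add_apply, hk, hj]⟩

theorem not_mem_child (hO : OTree D a P N par) {v c : Vx} (hc : c ∈ N ∨ c ∈ P)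
    (hpc : par c = v) : v ∉ subT a P N par c := by
  rintro ⟨hv, k, hk⟩
  have h1 : par^[k + 1] v = v := by rw [Function.iterate_succ_apply', hk, hpc]
  have h2 := no_cycle hO hv h1
  subst h2
  rw [iter_a hO] at hk
  subst hk
  rcases hc with hc | hc
  · exact hO.ha.1 hc
  · exact hO.ha.2 hc

theorem disj_child (hO : OTree D a P N par) {v c c' : Vx} (hc : c ∈ N ∨ c ∈ P)
    (hpc : par c = v) (hc' : c' ∈ N ∨ c' ∈ P) (hpc' : par c' = v) (hne : c ≠ c') :
    Disjoint (subT a P N par c) (subT a P N par c') := by
  have key : ∀ c c' : Vx, (c ∈ N ∨ c ∈ P) → par c = v → (c' ∈ N ∨ c' ∈ P) → par c' = v →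
      c ≠ c' → ∀ (w : Vx) (k k' : ℕ), (w ∈ N ∨ w ∈ P ∨ w = a) → par^[k] w = c →
      par^[k'] w = c' → ¬ k ≤ k' := by
    intro c c' hc hpc hc' hpc' hne w k k' hw hk hk' hle
    obtain ⟨j, rfl⟩ := Nat.exists_eq_add_of_le hle
    rw [add_comm, Function.iterate_add_apply, hk] at hk'
    cases j with
    | zero => exact hne hk'
    | succ j =>
      rw [Function.iterate_succ_apply, hpc] at hk'
      have hv : v ∈ N ∨ v ∈ P ∨ v = a := by
        rw [← hpc]
        exact par_closed hO (by tauto)
      exact not_mem_child hO hc' hpc' ⟨hv, j, hk'⟩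
  rw [Set.disjoint_left]
  rintro w ⟨hw, k, hk⟩ ⟨-, k', hk'⟩
  rcases le_total k k' with h | h
  · exact key c c' hc hpc hc' hpc' hne w k k' hw hk hk' h
  · exact key c' c hc' hpc' hc hpc hne.symm w k' k hw hk' hk h

theorem exists_child (hO : OTree D a P N par) {v t : Vx} (ht : t ∈ P)
    (h : t ∈ subT a P N par v) (hvt : v ≠ t) :
    ∃ c, (c ∈ N ∨ c ∈ P) ∧ par c = v ∧ t ∈ subT a P N par c := by
  classical
  obtain ⟨hw, hk⟩ := h
  have h0 : Nat.find hk ≠ 0 := by
    intro h0
    have := Nat.find_spec hk
    rw [h0] at this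
    exact hvt this.symm
  obtain ⟨j, hj⟩ := Nat.exists_eq_succ_of_ne_zero h0
  have h1 := Nat.find_spec hk
  rw [hj, Function.iterate_succ_apply'] at h1
  have h2 : par^[j] t ≠ v := Nat.find_min hk (by omega)
  refine ⟨par^[j] t, ?_, h1, hw, j, rfl⟩
  rcases iter_closed hO hw j with h3 | h3 | h3
  · exact Or.inl h3
  · exact Or.inr h3
  · rw [h3, hO.fix] at h1
    exact absurd (h3.trans h1) h2

/-- the path from a descendant -/
def ancT (par : Vx → Vx) (t : Vx) (k : ℕ) : Set Vx := {x | ∃ i ≤ k, par^[i] t = x}

theorem ancT_path (hO : OTree D a P N par) {c t : Vx} (hc : c ∈ N ∨ c ∈ P) (ht : t ∈ P)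
    {k : ℕ} (hk : par^[k] t = c) : ∀ u ∈ ancT par t k, RIn D (ancT par t k) u t := by
  have hna : ∀ i ≤ k, par^[i] t ∈ N ∨ par^[i] t ∈ P := by
    intro i hi
    rcases iter_closed hO (w := t) (by tauto) i with h | h | h
    · exact Or.inl h
    · exact Or.inr h
    · obtain ⟨j, rfl⟩ := Nat.exists_eq_add_of_le hi
      rw [add_comm, Function.iterate_add_apply, h, iter_a hO] at hk
      subst hk
      rcases hc with hc | hc
      · exact absurd hc hO.ha.1
      · exact absurd hc hO.ha.2
  have key : ∀ i ≤ k, RIn D (ancT par t k) (par^[i] t) t := by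
    intro i
    induction i with
    | zero => exact fun _ => RIn.refl ⟨0, by omega, rfl⟩
    | succ i ih =>
      intro hi
      refine RIn.head (y := par^[i] t) ?_ ⟨i + 1, hi, rfl⟩ (ih (by omega))
      rw [Function.iterate_succ_apply']
      exact (hO.arc _ (hna i (by omega))).2
  rintro u ⟨i, hi, rfl⟩
  exact key i hi

theorem ancT_sub (hO : OTree D a P N par) {c t : Vx} (ht : t ∈ P)
    {k : ℕ} (hk : par^[k] t = c) : ancT par t k ⊆ subT a P N par c := by
  rintro u ⟨i, hi, rfl⟩
  refine ⟨iter_closed hO (by tauto) i, k - i, ?_⟩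
  rw [← Function.iterate_add_apply, Nat.sub_add_cancel hi, hk]

end

/-- the bound -/
def trN (d : ℕ) : ℕ → ℕ
  | 0 => 1
  | n + 1 => d * trN d n + 1

theorem one_le_trN (d n : ℕ) : 1 ≤ trN d n := by
  cases n with
  | zero => exact le_refl 1
  | succ n => simp [trN]

theorem comb_of_tree {D : Vx → Vx → Prop} {a : Vx} {T : Finset Vx} {N : Set Vx}
    {par : Vx → Vx} {d : ℕ} (hO : OTree D a (T : Set Vx) N par) (hN : N.Finite)
    (hd : ∀ u, {v | D u v}.Finite ∧ {v | D u v}.ncard ≤ d) (n : ℕ) :
    ∀ (s : ℕ) (v : Vx), (v ∈ N ∨ v = a) → (subT a T N par v).ncard = s →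
      trN d n < {t | t ∈ T ∧ t ∈ subT a T N par v}.ncard →
      ∃ (w t : ℕ → Vx) (Seg Ex : ℕ → Set Vx), Comb D (T : Set Vx) n v w t Seg Ex ∧
        ∀ i < n, Seg i ⊆ subT a T N par v ∧ Ex i ⊆ subT a T N par v := by
  classical
  have hfinS : ∀ v, (subT a T N par v).Finite := by
    intro v
    refine ((hN.union T.finite_toSet).union (Set.finite_singleton a)).subset ?_
    rintro w ⟨hw | hw | hw, -⟩
    · exact Or.inl (Or.inl hw)
    · exact Or.inl (Or.inr hw)
    · exact Or.inr hw
  have hfinL : ∀ v, {t | t ∈ T ∧ t ∈ subT a T N par v}.Finite := fun v =>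
    (hfinS v).subset fun t ht => ht.2
  induction n with
  | zero =>
    intro s v _ _ _
    exact ⟨fun _ => v, fun _ => v, fun _ => ∅, fun _ => ∅,
      ⟨fun h => absurd h (by omega), fun i h => absurd h (by omega),
        fun i h => absurd h (by omega), fun i h => absurd h (by omega),
        fun i h => absurd h (by omega), fun i h => absurd h (by omega),
        fun i h => absurd h (by omega), fun i h => absurd h (by omega),
        fun i h => absurd h (by omega)⟩, fun i h => absurd h (by omega)⟩
  | succ n ih =>
    intro s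
    induction s using Nat.strong_induction_on with
    | _ s ihs =>
      intro v hv hs hcard
      have hvT : v ∉ T := by
        intro h
        rcases hv with hv | rfl
        · exact Set.disjoint_left.1 hO.hNP hv h
        · exact hO.ha.2 h
      have hv3 : v ∈ N ∨ v ∈ (T : Set Vx) ∨ v = a := by tauto
      -- children
      have hchfin : {c | (c ∈ N ∨ c ∈ (T : Set Vx)) ∧ par c = v}.Finite := by
        refine (hN.union T.finite_toSet).subset ?_
        rintro c ⟨hc, -⟩
        exact hc
      have hchcard : hchfin.toFinset.card ≤ d := by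
        refine le_trans ?_ (hd v).2
        rw [Set.ncard_eq_toFinset_card _ (hd v).1]
        refine Finset.card_le_card ?_
        intro c hc
        rw [Set.Finite.mem_toFinset] at hc ⊢
        obtain ⟨hc, rfl⟩ := hc
        exact (hO.arc c hc).2
      -- leaves below v are below children
      have hcover : (hfinL v).toFinset ⊆
          hchfin.toFinset.biUnion fun c => (hfinL c).toFinset := by
        intro t ht
        rw [Set.Finite.mem_toFinset] at ht
        obtain ⟨c, hc, hpc, htc⟩ := exists_child hO ht.1 ht.2
          (fun h => hvT (h ▸ ht.1))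
        rw [Finset.mem_biUnion]
        exact ⟨c, by rw [Set.Finite.mem_toFinset]; exact ⟨hc, hpc⟩, by
          rw [Set.Finite.mem_toFinset]; exact ⟨ht.1, htc⟩⟩
      obtain ⟨c, hc, hcN⟩ : ∃ c ∈ hchfin.toFinset, trN d n < (hfinL c).toFinset.card := by
        by_contra hcon
        push Not at hcon
        have h1 := Finset.card_le_card hcover
        have h2 := Finset.card_biUnion_le_card_mul hchfin.toFinset
          (fun c => (hfinL c).toFinset) (trN d n) hcon
        rw [Set.ncard_eq_toFinset_card _ (hfinL v)] at hcard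
        have h3 : hchfin.toFinset.card * trN d n ≤ d * trN d n :=
          Nat.mul_le_mul_right _ hchcard
        simp only [trN] at hcard
        omega
      rw [Set.Finite.mem_toFinset] at hc
      obtain ⟨hc, hpc⟩ := hc
      have hvc : D v c := by
        rw [← hpc]
        exact (hO.arc c hc).2
      have hcN' : c ∈ N := by
        rcases hc with hc | hc
        · exact hc
        · exfalso
          have h1 : (hfinL c).toFinset ⊆ {c} := by
            intro t ht
            rw [Set.Finite.mem_toFinset] at ht
            by_contra hne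
            rw [Finset.mem_singleton] at hne
            obtain ⟨c', hc', hpc', -⟩ := exists_child hO ht.1 ht.2 (fun h => hne h.symm)
            rcases (hO.arc c' hc').1 with h | h
            · rw [hpc'] at h
              exact Set.disjoint_left.1 hO.hNP h hc
            · rw [hpc'] at h
              exact hO.ha.2 (h ▸ hc)
          have h2 := Finset.card_le_card h1
          have h3 := one_le_trN d n
          rw [Finset.card_singleton] at h2
          omega
      have hsub : subT a (T : Set Vx) N par c ⊆ subT a T N par v :=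
        subT_mono ⟨by tauto, 1, hpc⟩
      have hvnot : v ∉ subT a (T : Set Vx) N par c := not_mem_child hO hc hpc
      have hvself : v ∈ subT a (T : Set Vx) N par v := self_mem_subT hv3
      by_cases hother : ∃ c', (c' ∈ N ∨ c' ∈ (T : Set Vx)) ∧ par c' = v ∧ c ≠ c'
      · obtain ⟨c', hc', hpc', hne⟩ := hother
        obtain ⟨t0, ht0, k, hk⟩ : ∃ t ∈ (T : Set Vx), ∃ k, par^[k] t = c' := by
          rcases hc' with h | h
          · exact hO.below c' h
          · exact ⟨c', h, 0, rfl⟩
        have hsub' : subT a (T : Set Vx) N par c' ⊆ subT a T N par v :=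
          subT_mono ⟨by tauto, 1, hpc'⟩
        have hvnot' : v ∉ subT a (T : Set Vx) N par c' := not_mem_child hO hc' hpc'
        have hdis := disj_child hO hc hpc hc' hpc' hne
        have hanc := ancT_path hO hc' ht0 hk
        have hancs := ancT_sub hO ht0 hk
        obtain ⟨w, t, Seg, Ex, hcomb, hin⟩ := ih _ c (Or.inl hcN') rfl (by
          rw [Set.ncard_eq_toFinset_card _ (hfinL c)]
          exact hcN)
        have hvc' : D v c' := by
          rw [← hpc']
          exact (hO.arc c' hc').2
        refine ⟨_, _, _, _, comb_cons (E := ancT par t0 k) hcomb (fun i hi => (hin i hi).1)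
          (fun i hi => (hin i hi).2) hvnot (hdis.symm.mono_left hancs)
          (fun h => hvnot' (hancs h)) hvc ht0 ?_ hanc, ?_⟩
        · exact RIn.head hvc' (Set.mem_insert _ _)
            ((hanc c' ⟨k, le_refl k, hk⟩).mono_set (Set.subset_insert _ _))
        · intro i hi
          cases i with
          | zero =>
            exact ⟨by
              simp only [consN_zero]
              exact Set.singleton_subset_iff.2 hvself, hancs.trans hsub'⟩
          | succ i =>
            exact ⟨(hin i (by omega)).1.trans hsub, (hin i (by omega)).2.trans hsub⟩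
      · push Not at hother
        have hLsub : {t | t ∈ T ∧ t ∈ subT a (T : Set Vx) N par v} ⊆
            {t | t ∈ T ∧ t ∈ subT a (T : Set Vx) N par c} := by
          intro t ht
          obtain ⟨c', hc', hpc', htc'⟩ := exists_child hO ht.1 ht.2
            (fun h => hvT (h ▸ ht.1))
          have := hother c' hc' hpc'
          subst this
          exact ⟨ht.1, htc'⟩
        have hlt : (subT a (T : Set Vx) N par c).ncard < s := by
          rw [← hs]
          refine Set.ncard_lt_ncard ⟨hsub, fun h => hvnot (h hvself)⟩ (hfinS v)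
        obtain ⟨w, t, Seg, Ex, hcomb, hin⟩ := ihs _ hlt c (Or.inl hcN') rfl
          (lt_of_lt_of_le hcard (Set.ncard_le_ncard hLsub (hfinL c)))
        refine ⟨_, _, _, _, comb_insert hcomb (fun i hi => (hin i hi).1)
          (fun i hi => (hin i hi).2) hvnot hvc, ?_⟩
        intro i hi
        refine ⟨?_, (hin i hi).2.trans hsub⟩
        cases i with
        | zero =>
          rintro x (rfl | hx)
          · exact hvself
          · exact hsub ((hin 0 hi).1 hx)
        | succ i => exact (hin (i + 1) hi).1.trans hsub

theorem T_TRC_holds (hOT : T_OT) : T_TRC := by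
  classical
  intro d n
  refine ⟨trN d n, fun D U hU hDU hd a T hT haT hcard => ?_⟩
  have hd' : ∀ u, {v | D u v}.Finite ∧ {v | D u v}.ncard ≤ d := fun u =>
    ⟨hU.subset fun v hv => (hDU u v hv).2, hd u⟩
  have hwalk : ∀ t ∈ (T : Set Vx),
      RIn D (({a, t} : Set Vx) ∪ (U \ ((T : Set Vx) ∪ {a}))) a t := by
    intro t ht
    have h1 := (hT t ht).2.2
    clear ht
    induction h1 with
    | refl => exact RIn.refl (Or.inl (by simp))
    | @tail b c _ h4 ih =>
      refine RIn.tail (y := b) (ih.mono_set ?_) h4.1 (Or.inl (by simp))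
      rintro x ((rfl | rfl) | hx)
      · exact Or.inl (by simp)
      · by_cases hxa : x = a
        · exact Or.inl (by simp [hxa])
        · refine Or.inr ⟨(hDU _ _ h4.1).1, ?_⟩
          rintro (h | h)
          · exact (hT x h).1 c h4.1
          · exact hxa h
      · exact Or.inr hx
  obtain ⟨N, par, hNV, hO⟩ := hOT D a (U \ ((T : Set Vx) ∪ {a})) T (hU.subset fun x hx => hx.1)
    T.finite_toSet (fun h => h.2 (Or.inr rfl)) haT
    (Set.disjoint_left.2 fun x hx hxT => hx.2 (Or.inl hxT)) hwalk
  have hN : N.Finite := hU.subset fun x hx => (hNV hx).1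
  have hall : {t | t ∈ T ∧ t ∈ subT a (T : Set Vx) N par a} = (T : Set Vx) := by
    ext t
    constructor
    · exact fun h => h.1
    · intro h
      obtain ⟨k, hk⟩ := hO.root t (Or.inr h)
      exact ⟨h, Or.inr (Or.inl h), k, hk⟩
  obtain ⟨w, t, Seg, Ex, hcomb, -⟩ := comb_of_tree hO hN hd' n _ a (Or.inr rfl) rfl (by
    rw [hall, Set.ncard_coe_finset]
    exact hcard)
  exact ⟨w, t, Seg, Ex, hcomb⟩

end Pool.Agent.H34.GW
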