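import Pool.Agent.H55.GW.Targets2

/-!
# UTC: two disjoint rooted trees have bounded connectivity
-/

set_option autoImplicit false

namespace Pool.Agent.H34.GW

open Pool.Agent.H55.GW

/-- two linkages onto the same set can be indexed by that set -/
theorem two_lnk {W : Type} {D D' : W → W → Prop} {T₁ T₂ : Set W} {X : Finset W}
    (h₁ : Lnk D X.card T₁ (X : Set W)) (h₂ : Lnk D' X.card T₂ (X : Set W)) :
    ∃ (w x₁ x₂ : Fin X.card → W) (S₁ S₂ : Fin X.card → Set W), Function.Injective w ∧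
      (∀ i, w i ∈ X ∧ x₁ i ∈ T₁ ∧ x₂ i ∈ T₂ ∧ RIn D (S₁ i) (x₁ i) (w i) ∧
        RIn D' (S₂ i) (x₂ i) (w i)) ∧
      (∀ i j, i ≠ j → Disjoint (S₁ i) (S₁ j)) ∧ ∀ i j, i ≠ j → Disjoint (S₂ i) (S₂ j) := by
  classical
  obtain ⟨x₁, y₁, S₁, h1, h1'⟩ := h₁
  obtain ⟨x₂, y₂, S₂, h2, h2'⟩ := h₂
  have hi1 := (lnk_inj (fun i => (h1 i).2.2) h1').2
  have hi2 := (lnk_inj (fun i => (h2 i).2.2) h2').2
  have hsurj : ∀ v ∈ X, ∃ j, y₂ j = v := by
    have h3 : Finset.univ.image y₂ = X := by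
      refine Finset.eq_of_subset_of_card_le ?_ ?_
      · intro v hv
        obtain ⟨j, -, rfl⟩ := Finset.mem_image.1 hv
        exact (h2 j).2.1
      · rw [Finset.card_image_of_injective _ hi2]
        simp
    intro v hv
    rw [← h3] at hv
    obtain ⟨j, -, hj⟩ := Finset.mem_image.1 hv
    exact ⟨j, hj⟩
  have h3 : ∀ i, ∃ j, y₂ j = y₁ i := fun i => hsurj _ (h1 i).2.1
  choose f hf using h3
  have hfi : ∀ i j, i ≠ j → f i ≠ f j := by
    intro i j hij h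
    apply hij
    apply hi1
    rw [← hf i, ← hf j, h]
  refine ⟨y₁, x₁, fun i => x₂ (f i), S₁, fun i => S₂ (f i), hi1, ?_, h1', ?_⟩
  · intro i
    refine ⟨(h1 i).2.1, (h1 i).1, (h2 (f i)).1, (h1 i).2.2, ?_⟩
    have h4 := (h2 (f i)).2.2
    rw [hf i] at h4
    exact h4
  · intro i j hij
    exact h2' _ _ (hfi i j hij)

/-- a walk stays in a set containing all its vertices that can be entered -/
theorem rIn_restrict {W : Type} {D : W → W → Prop} {S T : Set W} {x y : W} (h : RIn D S x y)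
    (hx : x ∈ T) (hT : ∀ u v, D u v → v ∈ S → v ∈ T) : RIn D T x y := by
  obtain ⟨h1, h2⟩ := h
  induction h2 with
  | refl => exact RIn.refl hx
  | @tail b c _ h4 ih => exact ih.tail h4.1 (hT b c h4.1 h4.2)

/-- the walk from the root of a tree -/
theorem tree_walk {D : Vx → Vx → Prop} {a : Vx} {P N : Set Vx} {par : Vx → Vx}
    (hO : OTree D a P N par) {v : Vx} (hv : v ∈ N ∨ v ∈ P) :
    RIn D (({a, v} : Set Vx) ∪ N) a v := by
  obtain ⟨k, hk⟩ := hO.root v hv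
  induction k generalizing v with
  | zero =>
    have h1 : v = a := hk
    subst h1
    exact RIn.refl (Or.inl (by simp))
  | succ k ih =>
    rw [Function.iterate_succ_apply] at hk
    obtain ⟨h1, h2⟩ := hO.arc v hv
    rcases h1 with h1 | h1
    · refine RIn.tail (y := par v) ((ih (Or.inl h1) hk).mono_set ?_) h2 (Or.inl (by simp))
      rintro x ((rfl | rfl) | hx)
      · exact Or.inl (by simp)
      · exact Or.inr h1
      · exact Or.inr hx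
    · refine RIn.tail (y := a) (RIn.refl (Or.inl (by simp))) (h1 ▸ h2) (Or.inl (by simp))

theorem tree_reach {D : Vx → Vx → Prop} {a : ℕ} {P : Set ℕ} {N : Set Vx} {par : Vx → Vx}
    (hO : OTree D (Sum.inl a) (Sum.inl '' P) N par) {v : Vx} (hv : v ∈ trS a P N) :
    RIn D (trS a P N) (Sum.inl a) v := by
  rcases hv with (hv | hv) | hv
  · rw [Set.mem_singleton_iff] at hv
    subst hv
    exact RIn.refl (Or.inl (Or.inl rfl))
  · refine (tree_walk hO (Or.inl hv)).mono_set ?_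
    rintro x ((rfl | rfl) | hx)
    · exact Or.inl (Or.inl rfl)
    · exact Or.inl (Or.inr hv)
    · exact Or.inl (Or.inr hx)
  · refine (tree_walk hO (Or.inr hv)).mono_set ?_
    rintro x ((rfl | rfl) | hx)
    · exact Or.inl (Or.inl rfl)
    · exact Or.inr hv
    · exact Or.inl (Or.inr hx)

theorem ncard_le_one_of_disj {n : ℕ} {S : Fin n → Set Vx}
    (h : ∀ i j, i ≠ j → Disjoint (S i) (S j)) (x : Vx) : {i | x ∈ S i}.ncard ≤ 1 := by
  refine (Set.ncard_le_one (Set.toFinite _)).2 ?_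
  intro i hi j hj
  by_contra hij
  exact Set.disjoint_left.1 (h i j hij) hi hj

/-- the trees given by the walks of a rig -/
theorem rig_tree (hOT : T_OT) {F : Frame} {m : ℕ → Vx} {a : ℕ} {P V : Set ℕ}
    (ha : a ∉ F.base m) (hP : P ⊆ F.base m)
    (hw : ∀ p ∈ P, RIn (F.D m) (({Sum.inl a, Sum.inl p} : Set Vx) ∪ Sum.inr '' V)
      (Sum.inl a) (Sum.inl p)) :
    ∃ (N : Set Vx) (par : Vx → Vx), N ⊆ Sum.inr '' (V ∩ (F.V : Set ℕ)) ∧
      OTree (F.D m) (Sum.inl a) (Sum.inl '' P) N par := by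
  refine hOT (F.D m) (Sum.inl a) (Sum.inr '' (V ∩ (F.V : Set ℕ))) (Sum.inl '' P) ?_ ?_ ?_ ?_ ?_
    ?_
  · exact (F.V.finite_toSet.subset Set.inter_subset_right).image _
  · exact (F.E.finite_toSet.subset (hP.trans Frame.base_subset)).image _
  · rintro ⟨v, -, hv⟩
    exact absurd hv (by simp)
  · rintro ⟨p, hp, hpa⟩
    have : p = a := by simpa using hpa
    exact ha (this ▸ hP hp)
  · rw [Set.disjoint_left]
    rintro x ⟨v, -, rfl⟩ ⟨p, -, hp⟩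
    exact absurd hp (by simp)
  · rintro _ ⟨p, hp, rfl⟩
    refine rIn_restrict (hw p hp) (Or.inl (by simp)) ?_
    rintro u v huv (hv | ⟨w, hwV, rfl⟩)
    · exact Or.inl hv
    · refine Or.inr ⟨w, ⟨hwV, ?_⟩, rfl⟩
      rcases (Frame.D_uni huv).2 with ⟨w', hw', h⟩ | ⟨e, -, h⟩
      · have : w = w' := by simpa using h
        subst this
        exact hw'
      · exact absurd h (by simp)

/-- the walks of the trees, inside the tree vertices -/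
theorem tree_hold {F : Frame} {m : ℕ → Vx} {a : ℕ} {P V : Set ℕ} {N : Set Vx} {par : Vx → Vx}
    (hN : N ⊆ Sum.inr '' (V ∩ (F.V : Set ℕ)))
    (hO : OTree (F.D m) (Sum.inl a) (Sum.inl '' P) N par) {p : ℕ} (hp : p ∈ P) :
    RIn (F.D m) (({Sum.inl a, Sum.inl p} : Set Vx) ∪ Sum.inr '' {v | Sum.inr v ∈ N})
      (Sum.inl a) (Sum.inl p) := by
  refine (tree_walk hO (Or.inr ⟨p, hp, rfl⟩)).mono_set ?_
  rintro x (hx | hx)
  · exact Or.inl hx
  · obtain ⟨v, -, rfl⟩ := hN hx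
    exact Or.inr ⟨v, hx, rfl⟩

/-- the core of the proof: there is no minor-minimal bad matroid -/
theorem utc_core {q : ℕ} {φ : ℕ → ℕ} {K₁ K₂ : ℕ}
    (hMR : T_MR) (hOT : T_OT) (hSX : T_SX) (hSTR : T_STR) (hLAMU : T_LAMU)
    (hT1 : ∀ (M : Matroid ℕ) (B : Set ℕ) (R : Bool → ℕ → ℕ → Prop) (F : Frame) (m : ℕ → Vx)
      (col : Bool → Set ℕ), Gam q M → MinRig M B R F m col → ∀ m', F.IsPM m' →
        F.Exits m' φ ∧ F.Feeds m' φ)
    (hLO : ∀ (M : Matroid ℕ) (F : Frame) (m : ℕ → Vx), Gam q M → F.Rep M → F.IsPM m →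
      F.Exits m φ → ∀ a₁ a₂ : ℕ, a₁ ≠ a₂ → a₁ ∈ F.E → a₁ ∉ F.base m → a₂ ∈ F.E →
      a₂ ∉ F.base m → ∀ T₁ T₂ : Set Vx, Disjoint T₁ T₂ → ∀ (n : ℕ) (w : Fin n → Vx),
      Function.Injective w → (∀ i, w i ∈ F.inn ∨ w i ∈ F.snk m) → ∀ S₁ S₂ : Fin n → Set Vx,
      (∀ i, RIn (F.D m) (T₁ ∪ S₁ i) (Sum.inl a₁) (w i)) →
      (∀ i, RIn (F.D m) (T₂ ∪ S₂ i) (Sum.inl a₂) (w i)) →
      (∀ x, {i | x ∈ S₁ i}.ncard ≤ 1) → (∀ x, {i | x ∈ S₂ i}.ncard ≤ 1) → n ≤ K₁)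
    (hLI : ∀ (M : Matroid ℕ) (F : Frame) (m : ℕ → Vx), Gam q M → F.Rep M → Good F φ →
      F.IsPM m → ∀ (a₁ a₂ : ℕ) (P₁ P₂ : Set ℕ) (N₁ N₂ : Set Vx) (par₁ par₂ : Vx → Vx),
      Two F m a₁ a₂ P₁ P₂ N₁ N₂ par₁ par₂ →
      ∀ (n : ℕ) (w d₁ d₂ : Fin n → Vx) (R₁ R₂ : Fin n → Set Vx), (∀ i, w i ∈ F.inn ∧
        RIn (F.D m) (R₁ i) (w i) (d₁ i) ∧ RIn (F.D m) (R₂ i) (w i) (d₂ i) ∧
        d₁ i ∈ trS a₁ P₁ N₁ ∧ d₂ i ∈ trS a₂ P₂ N₂) →
      (∀ i j, i ≠ j → Disjoint (R₁ i) (R₁ j)) → (∀ i j, i ≠ j → Disjoint (R₂ i) (R₂ j)) →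
      n ≤ K₂)
    {M : Matroid ℕ} {a₁ a₂ : ℕ} {P₁ P₂ : Set ℕ} (hM : Gam q M) (hne : a₁ ≠ a₂)
    (hdP : Disjoint P₁ P₂) (hbad : BadRT (4 * (K₁ + K₂)) M a₁ a₂ P₁ P₂)
    (hmin : ∀ e ∈ M.E, ¬ BadRT (4 * (K₁ + K₂)) (M.delete {e}) a₁ a₂ P₁ P₂ ∧
      ¬ BadRT (4 * (K₁ + K₂)) (M.contract {e}) a₁ a₂ P₁ P₂) : False := by
  classical
  obtain ⟨B, F₀, m₀, col₀, hrig₀, hP₁, hP₂, ha₁, ha₂, hZ⟩ := hbad
  obtain ⟨F, m, col, hmr⟩ := hMR _ _ _ _ _ _ hrig₀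
  obtain ⟨hrig, -⟩ := id hmr
  have hgood : Good F φ := fun m' hm' => hT1 M B _ F m col hM hmr m' hm'
  have hrep := hrig.rep
  have hpm := hrig.pm
  have hME : M.E = (F.E : Set ℕ) := hrep.1
  obtain rfl : F.base m = B := hrig.base
  have ha₁' : a₁ ∈ F.E := by
    have := ha₁.1
    rw [hME] at this
    simpa using this
  have ha₂' : a₂ ∈ F.E := by
    have := ha₂.1
    rw [hME] at this
    simpa using this
  -- the trees
  obtain ⟨N₁, par₁, hN₁, hO₁⟩ := rig_tree hOT (V := col true) ha₁.2 hP₁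
    (fun p hp => hrig.hold true a₁ p (Or.inl ⟨rfl, rfl, hp⟩))
  obtain ⟨N₂, par₂, hN₂, hO₂⟩ := rig_tree hOT (V := col false) ha₂.2 hP₂
    (fun p hp => hrig.hold false a₂ p (Or.inr ⟨rfl, rfl, hp⟩))
  have hdN : Disjoint N₁ N₂ := by
    rw [Set.disjoint_left]
    intro x h1 h2
    obtain ⟨v, hv, rfl⟩ := hN₁ h1
    obtain ⟨w, hw, hvw⟩ := hN₂ h2
    have : w = v := by simpa using hvw
    subst this
    exact Set.disjoint_left.1 hrig.disj hv.1 hw.1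
  have hinn₁ : N₁ ⊆ F.inn := by
    intro x hx
    obtain ⟨v, hv, rfl⟩ := hN₁ hx
    exact ⟨v, by simpa using hv.2, rfl⟩
  have hinn₂ : N₂ ⊆ F.inn := by
    intro x hx
    obtain ⟨v, hv, rfl⟩ := hN₂ hx
    exact ⟨v, by simpa using hv.2, rfl⟩
  have htwo : Two F m a₁ a₂ P₁ P₂ N₁ N₂ par₁ par₂ :=
    ⟨hne, ⟨ha₁', ha₁.2⟩, ⟨ha₂', ha₂.2⟩, hP₁, hP₂, hdP, hdN, hinn₁, hinn₂, hO₁, hO₂⟩
  -- the rig of the trees
  have hrig' : Rig M (F.base m) (RR2 a₁ a₂ P₁ P₂) F m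
      (fun c => {v | Sum.inr v ∈ (if c = true then N₁ else N₂)}) := by
    refine ⟨hrep, hpm, rfl, ?_, ?_⟩
    · rw [Set.disjoint_left]
      intro v h1 h2
      simp only [if_true, Set.mem_ofPred_eq] at h1
      simp only [Bool.false_eq_true, if_false, Set.mem_ofPred_eq] at h2
      exact Set.disjoint_left.1 hdN h1 h2
    · rintro c s t (⟨rfl, rfl, ht⟩ | ⟨rfl, rfl, ht⟩)
      · simp only [if_true]
        exact tree_hold hN₁ hO₁ ht
      · simp only [Bool.false_eq_true, if_false]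
        exact tree_hold hN₂ hO₂ ht
  have hstr := hSTR _ M a₁ a₂ P₁ P₂ hne hdP hZ hmin _ F m _ hrig' hP₁ hP₂ ha₁ ha₂
  -- basic facts on the vertex sets of the trees
  have hTR₁ : trS a₁ P₁ N₁ ⊆ F.uni := by
    rintro x ((hx | hx) | ⟨p, hp, rfl⟩)
    · exact Or.inr ⟨a₁, ha₁', hx⟩
    · obtain ⟨v, hv, rfl⟩ := hinn₁ hx
      exact Or.inl ⟨v, hv, rfl⟩
    · exact Or.inr ⟨p, by simpa using Frame.base_subset (hP₁ hp), rfl⟩
  have hTR₂ : trS a₂ P₂ N₂ ⊆ F.uni := by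
    rintro x ((hx | hx) | ⟨p, hp, rfl⟩)
    · exact Or.inr ⟨a₂, ha₂', hx⟩
    · obtain ⟨v, hv, rfl⟩ := hinn₂ hx
      exact Or.inl ⟨v, hv, rfl⟩
    · exact Or.inr ⟨p, by simpa using Frame.base_subset (hP₂ hp), rfl⟩
  have hdTR : Disjoint (trS a₁ P₁ N₁) (trS a₂ P₂ N₂) := by
    rw [Set.disjoint_left]
    rintro x ((hx | hx) | ⟨p, hp, rfl⟩) ((hy | hy) | ⟨p', hp', h'⟩)
    · rw [Set.mem_singleton_iff] at hx hy
      rw [hx] at hy
      exact hne (by simpa using hy)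
    · rw [Set.mem_singleton_iff] at hx
      obtain ⟨v, -, rfl⟩ := hinn₂ hy
      exact absurd hx (by simp)
    · rw [Set.mem_singleton_iff] at hx
      rw [hx] at h'
      have : p' = a₁ := by simpa using h'
      exact ha₁.2 (this ▸ hP₂ hp')
    · rw [Set.mem_singleton_iff] at hy
      obtain ⟨v, -, rfl⟩ := hinn₁ hx
      exact absurd hy (by simp)
    · exact Set.disjoint_left.1 hdN hx hy
    · obtain ⟨v, -, rfl⟩ := hinn₁ hx
      exact absurd h' (by simp)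
    · have : p = a₂ := by simpa using hy
      exact ha₂.2 (this ▸ hP₁ hp)
    · obtain ⟨v, -, h⟩ := hinn₂ hy
      exact absurd h (by simp)
    · have : p' = p := by simpa using h'
      exact Set.disjoint_left.1 hdP hp (this ▸ hp')
  -- separators
  have hQ : F.inn ∪ F.snk m ⊆ F.uni := by
    rintro x (⟨v, hv, rfl⟩ | ⟨e, he, rfl⟩)
    · exact Or.inl ⟨v, hv, rfl⟩
    · exact Or.inr ⟨e, by simpa using Frame.base_subset he, rfl⟩
  obtain ⟨S₁, hS₁c, hS₁⟩ := hSX Vx (F.D m) F.uni F.uni_finite (fun u v h => Frame.D_uni h)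
    (trS a₁ P₁ N₁) (trS a₂ P₂ N₂) (F.inn ∪ F.snk m) hTR₁ hTR₂ hQ K₁ (by
      intro X hX h1 h2
      obtain ⟨w, x₁, x₂, T₁, T₂, hw, hall, hd1, hd2⟩ := two_lnk h1 h2
      refine hLO M F m hM hrep hpm (hgood m hpm).1 a₁ a₂ hne ha₁' ha₁.2 ha₂' ha₂.2
        (trS a₁ P₁ N₁) (trS a₂ P₂ N₂) hdTR X.card w hw (fun i => hX (hall i).1) T₁ T₂ ?_ ?_
        (ncard_le_one_of_disj hd1) (ncard_le_one_of_disj hd2)
      · intro i
        exact ((tree_reach hO₁ (hall i).2.1).mono_set Set.subset_union_left).trans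
          ((hall i).2.2.2.1.mono_set Set.subset_union_right)
      · intro i
        exact ((tree_reach hO₂ (hall i).2.2.1).mono_set Set.subset_union_left).trans
          ((hall i).2.2.2.2.mono_set Set.subset_union_right))
  obtain ⟨S₂, hS₂c, hS₂⟩ := hSX Vx (fun a b => F.D m b a) F.uni F.uni_finite
    (fun u v h => (Frame.D_uni h).symm)
    (trS a₁ P₁ N₁) (trS a₂ P₂ N₂) F.inn hTR₁ hTR₂ (fun x hx => hQ (Or.inl hx)) K₂ (by
      intro X hX h1 h2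
      obtain ⟨w, x₁, x₂, T₁, T₂, hw, hall, hd1, hd2⟩ := two_lnk h1 h2
      refine hLI M F m hM hrep hgood hpm a₁ a₂ P₁ P₂ N₁ N₂ par₁ par₂ htwo X.card w x₁ x₂ T₁ T₂
        ?_ hd1 hd2
      intro i
      exact ⟨hX (hall i).1, (hall i).2.2.2.1.rev, (hall i).2.2.2.2.rev, (hall i).2.1,
        (hall i).2.2.1⟩)
  set S : Finset Vx := S₁ ∪ S₂ with hSdef
  have hSc : S.card ≤ 2 * K₁ + 2 * K₂ := (Finset.card_union_le _ _).trans (by omega)
  have hsub₁ : ((S : Set Vx)ᶜ : Set Vx) ⊆ (S₁ : Set Vx)ᶜ := by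
    intro x hx h
    exact hx (by simp only [hSdef, Finset.coe_union]; exact Or.inl h)
  have hsub₂ : ((S : Set Vx)ᶜ : Set Vx) ⊆ (S₂ : Set Vx)ᶜ := by
    intro x hx h
    exact hx (by simp only [hSdef, Finset.coe_union]; exact Or.inr h)
  -- no sink or internal vertex is reached from both trees
  have hR : ∀ v, (v ∈ F.inn ∨ v ∈ F.snk m) → ∀ s₁ ∈ trS a₁ P₁ N₁, ∀ s₂ ∈ trS a₂ P₂ N₂,
      RIn (F.D m) (S : Set Vx)ᶜ s₁ v → RIn (F.D m) (S : Set Vx)ᶜ s₂ v → False := by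
    intro v hv s₁ hs₁ s₂ hs₂ h1 h2
    exact hS₁ v hv (fun h => hsub₁ h1.right_mem h)
      ⟨⟨s₁, hs₁, h1.mono_set hsub₁⟩, ⟨s₂, hs₂, h2.mono_set hsub₁⟩⟩
  -- no internal vertex reaches both trees
  have hL : ∀ v ∈ F.inn, ∀ s₁ ∈ trS a₁ P₁ N₁, ∀ s₂ ∈ trS a₂ P₂ N₂,
      RIn (F.D m) (S : Set Vx)ᶜ v s₁ → RIn (F.D m) (S : Set Vx)ᶜ v s₂ → False := by
    intro v hv s₁ hs₁ s₂ hs₂ h1 h2
    exact hS₂ v hv (fun h => hsub₂ h1.left_mem h)
      ⟨⟨s₁, hs₁, (h1.mono_set hsub₂).rev⟩, ⟨s₂, hs₂, (h2.mono_set hsub₂).rev⟩⟩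
  -- walks meet the trees
  have hmeet : ∀ e ∈ M.E, e ∉ F.base m → ∀ b ∈ F.base m,
      RIn (F.D m) (S : Set Vx)ᶜ (Sum.inl e) (Sum.inl b) →
      ∃ z, (z ∈ trS a₁ P₁ N₁ ∨ z ∈ trS a₂ P₂ N₂) ∧
        RIn (F.D m) (S : Set Vx)ᶜ (Sum.inl e) z ∧ RIn (F.D m) (S : Set Vx)ᶜ z (Sum.inl b) := by
    intro e he heB b hb hw
    by_cases h1 : e = a₁
    · exact ⟨Sum.inl e, Or.inl (Or.inl (Or.inl (by rw [h1]; rfl))), RIn.refl hw.left_mem, hw⟩
    by_cases h2 : e = a₂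
    · exact ⟨Sum.inl e, Or.inr (Or.inl (Or.inl (by rw [h2]; rfl))), RIn.refl hw.left_mem, hw⟩
    by_cases h3 : b ∈ P₁
    · exact ⟨Sum.inl b, Or.inl (Or.inr ⟨b, h3, rfl⟩), hw, RIn.refl hw.right_mem⟩
    by_cases h4 : b ∈ P₂
    · exact ⟨Sum.inl b, Or.inr (Or.inr ⟨b, h4, rfl⟩), hw, RIn.refl hw.right_mem⟩
    rcases hw.avoid_or (N₁ ∪ N₂) with h5 | ⟨z, hz, h5, h6⟩
    · exfalso
      refine hstr e he heB h1 h2 b hb h3 h4 (h5.mono_set ?_)
      rintro x ⟨-, hx⟩ ⟨v, hv, rfl⟩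
      apply hx
      rcases hv with hv | hv
      · simp only [if_true, Set.mem_ofPred_eq] at hv
        exact Or.inl hv
      · simp only [Bool.false_eq_true, if_false, Set.mem_ofPred_eq] at hv
        exact Or.inr hv
    · refine ⟨z, ?_, h5.mono_set ?_, h6⟩
      · rcases hz with hz | hz
        · exact Or.inl (Or.inl (Or.inr hz))
        · exact Or.inr (Or.inl (Or.inr hz))
      · rintro x (hx | hx)
        · exact hx.1
        · rw [Set.mem_singleton_iff] at hx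
          subst hx
          exact h6.left_mem
  -- tree vertices that are entered are internal or sinks
  have hent₁ : ∀ (e : ℕ) (z : Vx), e ≠ a₁ → z ∈ trS a₁ P₁ N₁ →
      RIn (F.D m) (S : Set Vx)ᶜ (Sum.inl e) z → z ∈ F.inn ∨ z ∈ F.snk m := by
    rintro e z hea ((hz | hz) | ⟨p, hp, rfl⟩) hw
    · exfalso
      rw [Set.mem_singleton_iff] at hz
      subst hz
      rcases hw.cases_tail with h | ⟨y, -, h⟩
      · exact hea (by simpa using h)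
      · exact Frame.no_in_src ha₁.2 y h
    · exact Or.inl (hinn₁ hz)
    · exact Or.inr ⟨p, hP₁ hp, rfl⟩
  have hent₂ : ∀ (e : ℕ) (z : Vx), e ≠ a₂ → z ∈ trS a₂ P₂ N₂ →
      RIn (F.D m) (S : Set Vx)ᶜ (Sum.inl e) z → z ∈ F.inn ∨ z ∈ F.snk m := by
    rintro e z hea ((hz | hz) | ⟨p, hp, rfl⟩) hw
    · exfalso
      rw [Set.mem_singleton_iff] at hz
      subst hz
      rcases hw.cases_tail with h | ⟨y, -, h⟩
      · exact hea (by simpa using h)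
      · exact Frame.no_in_src ha₂.2 y h
    · exact Or.inl (hinn₂ hz)
    · exact Or.inr ⟨p, hP₂ hp, rfl⟩
  -- the set
  set Z : Set ℕ := {e | (e ∈ M.E ∧ e ∉ F.base m ∧ ∃ s ∈ trS a₁ P₁ N₁,
      RIn (F.D m) (S : Set Vx)ᶜ (Sum.inl e) s) ∨ (e ∈ F.base m ∧ ∃ s ∈ trS a₁ P₁ N₁,
      RIn (F.D m) (S : Set Vx)ᶜ s (Sum.inl e)) ∨ e ∈ P₁} with hZdef
  have hZE : Z ⊆ M.E := by
    rintro e (⟨he, -⟩ | ⟨he, -⟩ | he)
    · exact he
    · rw [hME]
      exact Frame.base_subset he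
    · rw [hME]
      exact Frame.base_subset (hP₁ he)
  have hZP₁ : P₁ ⊆ Z := fun e he => Or.inr (Or.inr he)
  have hZP₂ : Disjoint P₂ Z := by
    rw [Set.disjoint_left]
    rintro b hb (⟨-, he, -⟩ | ⟨-, s, hs, hw⟩ | he)
    · exact he (hP₂ hb)
    · exact hR (Sum.inl b) (Or.inr ⟨b, hP₂ hb, rfl⟩) s hs (Sum.inl b)
        (Or.inr ⟨b, hb, rfl⟩) hw (RIn.refl hw.right_mem)
    · exact Set.disjoint_left.1 hdP he hb
  have hA : Sep (F.D m) (S : Set Vx) (Sum.inl '' (Z \ F.base m))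
      (Sum.inl '' (F.base m \ Z)) := by
    rintro _ ⟨e, ⟨heZ, heB⟩, rfl⟩ _ ⟨b, ⟨hbB, hbZ⟩, rfl⟩ hw
    obtain ⟨heE, s, hs, hes⟩ : e ∈ M.E ∧ ∃ s ∈ trS a₁ P₁ N₁,
        RIn (F.D m) (S : Set Vx)ᶜ (Sum.inl e) s := by
      rcases heZ with ⟨h1, -, h2⟩ | ⟨h1, -⟩ | h1
      · exact ⟨h1, h2⟩
      · exact absurd h1 heB
      · exact absurd (hP₁ h1) heB
    obtain ⟨z, hz, hez, hzb⟩ := hmeet e heE heB b hbB hw
    rcases hz with hz | hz
    · exact hbZ (Or.inr (Or.inl ⟨hbB, z, hz, hzb⟩))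
    · by_cases h1 : e = a₁
      · refine hR z (hent₂ e z (fun h => hne (h1.symm.trans h)) hz hez) (Sum.inl e)
          (Or.inl (Or.inl (by rw [h1]; rfl))) z hz hez (RIn.refl hez.right_mem)
      by_cases h2 : e = a₂
      · refine hR s (hent₁ e s h1 hs hes) s hs (Sum.inl e)
          (Or.inl (Or.inl (by rw [h2]; rfl))) (RIn.refl hes.right_mem) hes
      have hn₁ : Sum.inl e ∉ trS a₁ P₁ N₁ := by
        rintro ((h | h) | ⟨p, hp, h⟩)
        · exact h1 (by simpa using h)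
        · obtain ⟨v, -, h⟩ := hinn₁ h
          exact absurd h (by simp)
        · have : p = e := by simpa using h
          exact heB (this ▸ hP₁ hp)
      have hn₂ : Sum.inl e ∉ trS a₂ P₂ N₂ := by
        rintro ((h | h) | ⟨p, hp, h⟩)
        · exact h2 (by simpa using h)
        · obtain ⟨v, -, h⟩ := hinn₂ h
          exact absurd h (by simp)
        · have : p = e := by simpa using h
          exact heB (this ▸ hP₂ hp)
      rcases hes.cases_head with h | ⟨u, hu, -, hus⟩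
      · exact hn₁ (h ▸ hs)
      rcases hez.cases_head with h | ⟨u', hu', -, huz⟩
      · exact hn₂ (h ▸ hz)
      rcases u with e' | u
      · exact absurd hu (by simp [Frame.D])
      rcases u' with e' | u'
      · exact absurd hu' (by simp [Frame.D])
      have huu : u = u' := F.att_uniq e u u' hu.1 hu'.1
      subst huu
      exact hL (Sum.inr u) ⟨u, Frame.att_V hu.1, rfl⟩ s hs z hz hus huz
  have hB : Sep (F.D m) (S : Set Vx) (Sum.inl '' ((M.E \ Z) \ F.base m))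
      (Sum.inl '' (F.base m ∩ Z)) := by
    rintro _ ⟨e, ⟨⟨heE, heZ⟩, heB⟩, rfl⟩ _ ⟨b, ⟨hbB, hbZ⟩, rfl⟩ hw
    obtain ⟨s, hs, hsb⟩ : ∃ s ∈ trS a₁ P₁ N₁,
        RIn (F.D m) (S : Set Vx)ᶜ s (Sum.inl b) := by
      rcases hbZ with ⟨-, h1, -⟩ | ⟨-, h2⟩ | h1
      · exact absurd hbB h1
      · exact h2
      · exact ⟨Sum.inl b, Or.inr ⟨b, h1, rfl⟩, RIn.refl hw.right_mem⟩
    obtain ⟨z, hz, hez, hzb⟩ := hmeet e heE heB b hbB hw
    rcases hz with hz | hz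
    · exact heZ (Or.inl ⟨heE, heB, z, hz, hez⟩)
    · exact hR (Sum.inl b) (Or.inr ⟨b, hbB, rfl⟩) s hs z hz hsb hzb
  have hlam := hLAMU F M m hrep hpm Z hZE S S hA hB
  have hgt := hZ Z hZE hZP₁ hZP₂
  omega

theorem T_UTC_holds (hT1 : T_T1) (hGMIN : T_GMIN) (hMR : T_MR) (hLO : T_LO) (hOT : T_OT)
    (hLI : T_LI) (hSX : T_SX) (hSTR : T_STR) (hLAMU : T_LAMU) : T_UTC := by
  classical
  intro q hq
  obtain ⟨φ, hφ, hφ'⟩ := hT1 q hq
  obtain ⟨K₁, hK₁⟩ := hLO q hq φ hφ 1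
  obtain ⟨K₂, hK₂⟩ := hLI q hq φ hφ
  have hno : ∀ (n : ℕ) (M : Matroid ℕ) (a₁ a₂ : ℕ) (P₁ P₂ : Set ℕ), M.E.ncard = n →
      Gam q M → a₁ ≠ a₂ → Disjoint P₁ P₂ → ¬ BadRT (4 * (K₁ + K₂)) M a₁ a₂ P₁ P₂ := by
    intro n
    induction n using Nat.strong_induction_on with
    | _ n ih =>
      intro M a₁ a₂ P₁ P₂ hn hM hne hdP hbad
      refine utc_core hMR hOT hSX hSTR hLAMU hφ' hK₁ hK₂ hM hne hdP hbad ?_
      intro e he
      have hlt : (M.E \ {e}).ncard < n := by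
        rw [← hn]
        exact Set.ncard_lt_ncard ⟨Set.sdiff_subset, fun h => (h he).2 rfl⟩ hM.1
      constructor
      · refine ih _ hlt (M.delete {e}) a₁ a₂ P₁ P₂ ?_ (hGMIN q M _ hM ?_) hne hdP
        · rw [Matroid.delete_ground]
        · exact ⟨∅, {e}, by simp⟩
      · refine ih _ hlt (M.contract {e}) a₁ a₂ P₁ P₂ ?_ (hGMIN q M _ hM ?_) hne hdP
        · rw [Matroid.contract_ground]
        · exact ⟨{e}, ∅, by simp⟩
  refine ⟨4 * (K₁ + K₂), fun M F m a₁ a₂ V₁ V₂ P₁ P₂ hM hrep hpm hrtp => ?_⟩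
  by_contra hcon
  push Not at hcon
  have hME : M.E = (F.E : Set ℕ) := hrep.1
  refine hno _ M a₁ a₂ P₁ P₂ rfl hM hrtp.ne hrtp.dP
    ⟨F.base m, F, m, fun c => if c = true then V₁ else V₂, ?_, hrtp.snk₁, hrtp.snk₂, ?_, ?_,
      fun Z h1 h2 h3 => hcon Z h1 h2 h3⟩
  · refine ⟨hrep, hpm, rfl, ?_, ?_⟩
    · simp only [if_true, Bool.false_eq_true, if_false]
      exact hrtp.dV
    · rintro c s t (⟨rfl, rfl, ht⟩ | ⟨rfl, rfl, ht⟩)
      · simp only [if_true]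
        exact hrtp.walk₁ t ht
      · simp only [Bool.false_eq_true, if_false]
        exact hrtp.walk₂ t ht
  · exact ⟨by rw [hME]; exact hrtp.src₁.1, hrtp.src₁.2⟩
  · exact ⟨by rw [hME]; exact hrtp.src₂.1, hrtp.src₂.2⟩

end Pool.Agent.H34.GW
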